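import Mathlib
import Pool.Agent.P8H5.GV.Stm

/-! # Package GV/NSQ, part 1: decomposition of non-squarefree numbers -/

set_option autoImplicit false

open Finset

namespace Pool.Agent.P8H5.GV.NSQ

/-- `log⁺ (y / d)` -/
noncomputable def lp (y : ℝ) (d : ℕ) : ℝ := if (d : ℝ) ≤ y then Real.log (y / d) else 0

theorem T_eq (y : ℝ) (n : ℕ) : T y n = ∑ d ∈ n.divisors, mu d * lp y d := by
  unfold T lp
  rw [sum_filter]
  exact sum_congr rfl (fun d _ => by split_ifs <;> simp)

theorem mu_zero {d : ℕ} (h : ¬ Squarefree d) : mu d = 0 := by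
  unfold mu
  rw [ArithmeticFunction.moebius_eq_zero_of_not_squarefree h]
  simp

theorem mu_mul {a b : ℕ} (h : a.Coprime b) : mu (a * b) = mu a * mu b := by
  unfold mu
  rw [ArithmeticFunction.isMultiplicative_moebius.map_mul_of_coprime h]
  push_cast
  ring

theorem abs_mu_le (d : ℕ) : |mu d| ≤ 1 := by
  unfold mu
  have h := ArithmeticFunction.abs_moebius_le_one (n := d)
  exact_mod_cast h

theorem mu_sq_le (d : ℕ) : mu d ^ 2 ≤ 1 := by
  have h := abs_mu_le d
  nlinarith [abs_nonneg (mu d), sq_abs (mu d)]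

theorem lp_mul (y : ℝ) {j d : ℕ} (hj : 0 < j) : lp y (j * d) = lp (y / j) d := by
  unfold lp
  have hj' : (0:ℝ) < j := by exact_mod_cast hj
  have h1 : (((j * d : ℕ) : ℝ) ≤ y) ↔ ((d : ℝ) ≤ y / j) := by
    rw [le_div_iff₀ hj']
    push_cast
    rw [mul_comm]
  by_cases h : (d : ℝ) ≤ y / j
  · rw [if_pos h, if_pos (h1.2 h)]
    congr 1
    push_cast
    rw [div_div]
  · rw [if_neg h, if_neg (fun h2 => h (h1.1 h2))]

theorem T_split (y : ℝ) (x g t : ℕ) (hx : 0 < x) (hg : g ∣ x) (ht : 0 < t) (hc : x.Coprime t) :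
    T y (x ^ 2 * g * t) = ∑ j ∈ x.divisors, mu j * T (y / j) t := by
  have hg0 : 0 < g := Nat.pos_of_dvd_of_pos hg hx
  have hn : x ^ 2 * g * t ≠ 0 := by positivity
  have hxt : x * t ≠ 0 := by positivity
  rw [T_eq]
  have h1 : ∑ d ∈ (x ^ 2 * g * t).divisors, mu d * lp y d = ∑ d ∈ (x * t).divisors, mu d * lp y d := by
    symm
    apply sum_subset
    · intro d hd
      rw [Nat.mem_divisors] at hd ⊢
      refine ⟨hd.1.trans ?_, hn⟩
      exact ⟨x * g, by ring⟩
    · intro d hd hd2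
      by_cases hs : Squarefree d
      · exfalso
        apply hd2
        rw [Nat.mem_divisors] at hd ⊢
        refine ⟨?_, hxt⟩
        have h3 : d ∣ (x * t) ^ 3 := by
          refine hd.1.trans ?_
          obtain ⟨k, hk⟩ := hg
          refine ⟨k * t ^ 2, ?_⟩
          calc (x * t) ^ 3 = x ^ 2 * x * t ^ 3 := by ring
            _ = x ^ 2 * (g * k) * t ^ 3 := by rw [← hk]
            _ = _ := by ring
        exact (hs.dvd_pow_iff_dvd (by norm_num)).1 h3
      · rw [mu_zero hs, zero_mul]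
  rw [h1, Nat.divisors_mul, Finset.mul_def, Finset.sum_image hc.mul_injOn_divisors, Finset.sum_product]
  apply sum_congr rfl
  intro j hj
  rw [T_eq, mul_sum]
  apply sum_congr rfl
  intro d hd
  have hj1 := Nat.dvd_of_mem_divisors hj
  have hd1 := Nat.dvd_of_mem_divisors hd
  have hcop : j.Coprime d := Nat.Coprime.coprime_dvd_left hj1 (Nat.Coprime.coprime_dvd_right hd1 hc)
  rw [mu_mul hcop, lp_mul y (Nat.pos_of_dvd_of_pos hj1 hx)]
  ring

theorem sum_mu {x : ℕ} (hx : 2 ≤ x) : ∑ j ∈ x.divisors, mu j = 0 := by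
  have h := congrArg (fun f : ArithmeticFunction ℤ => f x) ArithmeticFunction.coe_zeta_mul_moebius
  simp only [ArithmeticFunction.coe_zeta_mul_apply] at h
  rw [ArithmeticFunction.one_apply_ne (by omega)] at h
  unfold mu
  exact_mod_cast h

/-- the decomposition -/
theorem exists_decomp {n : ℕ} (hn : 1 ≤ n) (hs : ¬ Squarefree n) :
    ∃ x g t : ℕ, 2 ≤ x ∧ g ∣ x ∧ 0 < t ∧ Squarefree t ∧ x.Coprime t ∧ n = x ^ 2 * g * t := by
  obtain ⟨a, b, hab, ha⟩ := Nat.sq_mul_squarefree n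
  have hb0 : b ≠ 0 := by
    rintro rfl
    simp at hab
    omega
  have ha0 : a ≠ 0 := by
    rintro rfl
    simp at hab
    omega
  have hg : Nat.gcd a b ∣ a := Nat.gcd_dvd_left a b
  obtain ⟨t, ht⟩ := hg
  refine ⟨b, Nat.gcd a b, t, ?_, Nat.gcd_dvd_right a b, ?_, ?_, ?_, ?_⟩
  · rcases Nat.lt_or_ge b 2 with h | h
    · exfalso
      have : b = 1 := by omega
      subst this
      apply hs
      rw [← hab]
      simpa using ha
    · exact h
  · rcases Nat.eq_zero_or_pos t with h | h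
    · exfalso
      rw [h] at ht
      simp at ht
      exact ha0 ht
    · exact h
  · exact ha.squarefree_of_dvd ⟨Nat.gcd a b, by rw [mul_comm]; exact ht⟩
  · rw [Nat.coprime_iff_gcd_eq_one]
    by_contra hne
    obtain ⟨p, hp, hpd⟩ := Nat.exists_prime_and_dvd hne
    have hpb : p ∣ b := hpd.trans (Nat.gcd_dvd_left _ _)
    have hpt : p ∣ t := hpd.trans (Nat.gcd_dvd_right _ _)
    have hpa : p ∣ a := by rw [ht]; exact hpt.mul_left _
    have hpg : p ∣ Nat.gcd a b := Nat.dvd_gcd hpa hpb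
    have h2 : p * p ∣ a := by
      rw [ht]
      exact Nat.mul_dvd_mul hpg hpt
    have := ha p h2
    exact hp.one_lt.ne' (Nat.isUnit_iff.1 this)
  · rw [mul_assoc, ← ht, hab]

end Pool.Agent.P8H5.GV.NSQ
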