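import Mathlib
import Pool.Agent.P8H5.GV.Stm
import Pool.Agent.P8H87.GV.A1

/-! # Package GV/NSQ, part 2: the quadratic forms and the pairing -/

set_option autoImplicit false

open Finset

namespace Pool.Agent.P8H5.GV.NSQ

theorem a_eq_zero {y : ℝ} {r : ℕ} (h : ⌊y⌋₊ < r) : a y r = 0 := by
  unfold a
  apply sum_eq_zero
  intro d hd
  exfalso
  rw [mem_filter, mem_Icc] at hd
  have := Nat.le_of_dvd (by omega) hd.2
  omega

theorem Q2_ext {y z : ℝ} {m : ℕ} (h : max ⌊y⌋₊ ⌊z⌋₊ ≤ m) :
    Q2 y z = ∑ r ∈ Icc 1 m, (Nat.totient r : ℝ) * a y r * a z r := by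
  unfold Q2
  apply sum_subset (Icc_subset_Icc_right h)
  intro r hr hr2
  rw [mem_Icc] at hr hr2
  have h1 : ⌊y⌋₊ < r := by
    have := le_max_left ⌊y⌋₊ ⌊z⌋₊
    omega
  rw [a_eq_zero h1]
  simp

theorem q2_eq (y z : ℝ) : q2 y z = Q2 y y - 2 * Q2 y z + Q2 z z := by
  set m := max ⌊y⌋₊ ⌊z⌋₊ with hm
  rw [Q2_ext (y := y) (z := y) (m := m) (by rw [max_self]; exact le_max_left _ _),
    Q2_ext (y := y) (z := z) (m := m) le_rfl,
    Q2_ext (y := z) (z := z) (m := m) (by rw [max_self]; exact le_max_right _ _)]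
  unfold q2
  rw [← hm, mul_sum, ← sum_sub_distrib, ← sum_add_distrib]
  exact sum_congr rfl (fun r _ => by ring)

theorem Q2_self_zero {z : ℝ} (hz : z < 1) : Q2 z z = 0 := by
  unfold Q2
  have : ⌊z⌋₊ = 0 := Nat.floor_eq_zero.2 hz
  rw [this]
  simp

theorem q2_small {y z : ℝ} (hz : z < 1) : q2 y z = Q2 y y := by
  have h0 : ⌊z⌋₊ = 0 := Nat.floor_eq_zero.2 hz
  have h1 : Q2 y z = 0 := by
    unfold Q2
    apply sum_eq_zero
    intro r hr
    rw [mem_Icc] at hr
    rw [a_eq_zero (y := z) (r := r) (by omega)]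
    simp
  rw [q2_eq, h1, Q2_self_zero hz]
  ring

theorem pairing {x p : ℕ} (hp : p.Prime) (hpx : p ∣ x) (H : ℕ → ℝ) :
    ∑ j ∈ x.divisors, mu j * H j =
      ∑ j ∈ x.divisors.filter (fun j : ℕ => ¬ p ∣ j), mu j * (H j - H (p * j)) := by
  have h1 := sum_filter_add_sum_filter_not x.divisors (fun j : ℕ => p ∣ j) (fun j => mu j * H j)
  have h2 : ∑ j ∈ x.divisors.filter (fun j : ℕ => p ∣ j), mu j * H j =
      ∑ j ∈ (x.divisors.filter (fun j : ℕ => ¬ p ∣ j)).image (fun j => p * j), mu j * H j := by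
    symm
    apply sum_subset
    · intro k hk
      rw [mem_image] at hk
      obtain ⟨j, hj, rfl⟩ := hk
      rw [mem_filter, Nat.mem_divisors] at hj
      rw [mem_filter, Nat.mem_divisors]
      refine ⟨⟨?_, hj.1.2⟩, dvd_mul_right _ _⟩
      exact Nat.Coprime.mul_dvd_of_dvd_of_dvd ((Nat.Prime.coprime_iff_not_dvd hp).2 hj.2) hpx hj.1.1
    · intro k hk hk2
      rw [mem_filter, Nat.mem_divisors] at hk
      obtain ⟨i, rfl⟩ := hk.2
      have hpi : p ∣ i := by
        by_contra hpi
        apply hk2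
        rw [mem_image]
        refine ⟨i, ?_, rfl⟩
        rw [mem_filter, Nat.mem_divisors]
        exact ⟨⟨(dvd_mul_left _ _).trans hk.1.1, hk.1.2⟩, hpi⟩
      have : ¬ Squarefree (p * i) := by
        intro hs
        have := hs p (Nat.mul_dvd_mul (dvd_refl p) hpi)
        exact hp.one_lt.ne' (Nat.isUnit_iff.1 this)
      rw [mu_zero this, zero_mul]
  have h3 : ∑ j ∈ (x.divisors.filter (fun j : ℕ => ¬ p ∣ j)).image (fun j => p * j), mu j * H j =
      ∑ j ∈ x.divisors.filter (fun j : ℕ => ¬ p ∣ j), mu (p * j) * H (p * j) := by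
    apply sum_image
    intro i _ j _ hij
    exact Nat.eq_of_mul_eq_mul_left hp.pos hij
  rw [← h1, h2, h3, ← sum_add_distrib]
  apply sum_congr rfl
  intro j hj
  rw [mem_filter] at hj
  rw [mu_mul ((Nat.Prime.coprime_iff_not_dvd hp).2 hj.2)]
  have : mu p = -1 := by
    unfold mu
    rw [ArithmeticFunction.moebius_apply_prime hp]
    simp
  rw [this]
  ring

/-- the complementary sum -/
noncomputable def S (D : ℝ) (x t : ℕ) : ℝ := ∑ j ∈ x.divisors, mu j * T (j * t / D) t

theorem T_le_S (hC : S_CPL) {D : ℝ} (hD : 0 < D) {x g t : ℕ} (hx : 2 ≤ x) (hg : g ∣ x) (ht : 2 ≤ t)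
    (hs : Squarefree t) (hc : x.Coprime t) : T D (x ^ 2 * g * t) ^ 2 ≤ S D x t ^ 2 := by
  have h1 : T D (x ^ 2 * g * t) = mu t * S D x t := by
    rw [T_split D x g t (by omega) hg (by omega) hc]
    have h2 : ∀ j ∈ x.divisors, mu j * T (D / j) t =
        mu j * ArithmeticFunction.vonMangoldt t + mu t * (mu j * T (j * t / D) t) := by
      intro j hj
      have hj0 : 0 < j := Nat.pos_of_mem_divisors hj
      have hj1 : (0:ℝ) < j := by exact_mod_cast hj0
      rw [hC t (D / j) hs ht (by positivity)]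
      have : (t : ℝ) / (D / j) = j * t / D := by
        field_simp
      rw [this]
      ring
    rw [sum_congr rfl h2, sum_add_distrib, ← sum_mul, sum_mu hx, zero_mul, zero_add, ← mul_sum]
    rfl
  rw [h1, mul_pow]
  have := mu_sq_le t
  nlinarith [sq_nonneg (S D x t)]

theorem T_one {D : ℝ} (hD : 1 ≤ D) {x g : ℕ} (hx : 0 < x) (hg : g ∣ x) :
    T D (x ^ 2 * g * 1) ^ 2 ≤ ((x.divisors.card : ℝ) * Real.log D) ^ 2 := by
  have h1 : |T D (x ^ 2 * g * 1)| ≤ (x.divisors.card : ℝ) * Real.log D := by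
    rw [T_split D x g 1 hx hg one_pos (Nat.coprime_one_right x)]
    calc |∑ j ∈ x.divisors, mu j * T (D / j) 1| ≤ ∑ j ∈ x.divisors, |mu j * T (D / j) 1| :=
          abs_sum_le_sum_abs _ _
      _ ≤ ∑ j ∈ x.divisors, Real.log D := by
          apply sum_le_sum
          intro j hj
          have hj0 : 0 < j := Nat.pos_of_mem_divisors hj
          have hj1 : (1:ℝ) ≤ j := by exact_mod_cast hj0
          have hD0 : 0 < D := by linarith
          have hT : |T (D / j) 1| ≤ Real.log D := by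
            rw [T_eq]
            simp only [Nat.divisors_one, sum_singleton]
            have hmu : mu 1 = 1 := by
              unfold mu
              simp
            rw [hmu, one_mul]
            unfold lp
            have hl := Real.log_nonneg hD
            split_ifs with h
            · simp only [Nat.cast_one, div_one] at h ⊢
              rw [abs_of_nonneg (Real.log_nonneg h)]
              apply Real.log_le_log (by positivity)
              exact div_le_self hD0.le hj1
            · simpa using hl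
          rw [abs_mul]
          calc |mu j| * |T (D / j) 1| ≤ 1 * Real.log D :=
                mul_le_mul (abs_mu_le j) hT (abs_nonneg _) zero_le_one
            _ = Real.log D := one_mul _
      _ = _ := by rw [sum_const, nsmul_eq_mul]
  rw [← sq_abs]
  exact pow_le_pow_left₀ (abs_nonneg _) h1 2

/-- sums over a set covered by parameters -/
theorem sum_le_of_cover {α : Type*} [DecidableEq α] (s : Finset α) (A : Finset ℕ) (φ : α → ℕ)
    (f : ℕ → ℝ) (V : α → ℝ) (hV : ∀ b ∈ s, 0 ≤ V b) (h : ∀ n ∈ A, ∃ b ∈ s, φ b = n ∧ f n ≤ V b) :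
    ∑ n ∈ A, f n ≤ ∑ b ∈ s, V b := by
  rcases A.eq_empty_or_nonempty with rfl | ⟨n0, hn0⟩
  · simpa using sum_nonneg hV
  have : Nonempty α := ⟨(h n0 hn0).choose⟩
  choose! c hc using h
  have hinj : Set.InjOn c (A : Set ℕ) := by
    intro m hm n hn hmn
    rw [← (hc m hm).2.1, ← (hc n hn).2.1, hmn]
  calc ∑ n ∈ A, f n ≤ ∑ n ∈ A, V (c n) := sum_le_sum (fun n hn => (hc n hn).2.2)
    _ = ∑ b ∈ A.image c, V b := (sum_image hinj).symm
    _ ≤ ∑ b ∈ s, V b := by
        apply sum_le_sum_of_subset_of_nonneg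
        · intro b hb
          rw [mem_image] at hb
          obtain ⟨n, hn, rfl⟩ := hb
          exact (hc n hn).1
        · intro b hb _
          exact hV b hb

theorem cover (hC : S_CPL) {D N : ℕ} (hD : 1 ≤ D) (hDN : D ≤ N) :
    ∑ n ∈ (Icc 1 N).filter (fun n : ℕ => ¬ Squarefree n), T D n ^ 2 ≤
      ∑ x ∈ Icc 2 N, ∑ g ∈ x.divisors, ((if x ^ 2 ≤ N then ((x.divisors.card : ℝ) * Real.log N) ^ 2 else 0)
        + ∑ t ∈ Icc 1 (N / (x ^ 2 * g)), S D x t ^ 2) := by
  have hD1 : (1:ℝ) ≤ D := by exact_mod_cast hD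
  have hDN1 : (D:ℝ) ≤ N := by exact_mod_cast hDN
  have hlog : Real.log D ≤ Real.log N := Real.log_le_log (by linarith) hDN1
  have hlog0 : 0 ≤ Real.log D := Real.log_nonneg hD1
  set V : (Σ _ : ℕ, Σ _ : ℕ, ℕ) → ℝ := fun b =>
    (if b.2.2 = 1 then ((b.1.divisors.card : ℝ) * Real.log N) ^ 2 else 0) + S D b.1 b.2.2 ^ 2 with hVdef
  have hV0 : ∀ b, 0 ≤ V b := by
    intro b
    rw [hVdef]
    dsimp only
    have := sq_nonneg (S D b.1 b.2.2)
    split_ifs
    · positivity
    · linarith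
  have h1 := sum_le_of_cover ((Icc 2 N).sigma (fun x => x.divisors.sigma (fun g => Icc 1 (N / (x ^ 2 * g)))))
    ((Icc 1 N).filter (fun n : ℕ => ¬ Squarefree n)) (fun b => b.1 ^ 2 * b.2.1 * b.2.2)
    (fun n => T D n ^ 2) V (fun b _ => hV0 b) (by
      intro n hn
      rw [mem_filter, mem_Icc] at hn
      obtain ⟨x, g, t, hx, hg, ht, hts, hxt, hnx⟩ := exists_decomp hn.1.1 hn.2
      have hg0 : 0 < g := Nat.pos_of_dvd_of_pos hg (by omega)
      refine ⟨⟨x, ⟨g, t⟩⟩, ?_, hnx.symm, ?_⟩
      · rw [mem_sigma]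
        dsimp only
        rw [mem_sigma]
        dsimp only
        rw [mem_Icc, mem_Icc, Nat.mem_divisors]
        refine ⟨⟨hx, ?_⟩, ⟨hg, by omega⟩, ht, ?_⟩
        · calc x = x * 1 := (mul_one x).symm
            _ ≤ x * (x * g * t) := by
                apply Nat.mul_le_mul_left
                exact Nat.mul_pos (Nat.mul_pos (by omega) hg0) ht
            _ = n := by rw [hnx]; ring
            _ ≤ N := hn.1.2
        · rw [Nat.le_div_iff_mul_le (by positivity)]
          calc t * (x ^ 2 * g) = n := by rw [hnx]; ring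
            _ ≤ N := hn.1.2
      · rw [hVdef]
        dsimp only
        rw [hnx]
        rcases Nat.lt_or_ge t 2 with h | h
        · have h1 : t = 1 := by omega
          subst h1
          rw [if_pos rfl]
          have h2 := T_one hD1 (x := x) (g := g) (by omega) hg
          have h3 : ((x.divisors.card : ℝ) * Real.log D) ^ 2 ≤ ((x.divisors.card : ℝ) * Real.log N) ^ 2 := by
            apply pow_le_pow_left₀ (by positivity)
            exact mul_le_mul_of_nonneg_left hlog (by positivity)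
          have := sq_nonneg (S (D:ℝ) x 1)
          linarith
        · rw [if_neg (by omega), zero_add]
          exact T_le_S hC (by linarith) hx hg h hts hxt)
  refine h1.trans ?_
  rw [sum_sigma]
  apply sum_le_sum
  intro x hx
  rw [mem_Icc] at hx
  rw [sum_sigma]
  apply sum_le_sum
  intro g hg
  have hg0 : 0 < g := Nat.pos_of_mem_divisors hg
  have hx0 : 0 < x := by omega
  rw [hVdef]
  dsimp only
  rw [sum_add_distrib]
  apply add_le_add_left
  have hnn : 0 ≤ ((x.divisors.card : ℝ) * Real.log N) ^ 2 := sq_nonneg _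
  rw [sum_ite_eq' (Icc 1 (N / (x ^ 2 * g))) 1 (fun _ => ((x.divisors.card : ℝ) * Real.log N) ^ 2)]
  split_ifs with h2 h3 h3
  · exact le_rfl
  · exfalso
    apply h3
    rw [mem_Icc] at h2
    have h4 := (Nat.le_div_iff_mul_le (by positivity)).1 h2.2
    calc x ^ 2 = x ^ 2 * 1 := (mul_one _).symm
      _ ≤ x ^ 2 * g := Nat.mul_le_mul_left _ hg0
      _ = 1 * (x ^ 2 * g) := (one_mul _).symm
      _ ≤ N := h4
  · exact hnn
  · exact le_rfl

end Pool.Agent.P8H5.GV.NSQ
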