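import Mathlib
import Pool.Agent.P8H5.GV.Stm
import Pool.Agent.P8H87.GV.A2

/-! # Package GV/NSQ, part 3: mean squares of the complementary sums -/

set_option autoImplicit false

open Finset

namespace Pool.Agent.P8H5.GV.NSQ

/-- the error term -/
noncomputable def EE (N D : ℕ) : ℝ := ((N:ℝ) / D) ^ 2 * (1 + Real.log N) ^ 2

theorem EE_nonneg (N D : ℕ) : 0 ≤ EE N D := by unfold EE; positivity

theorem lM_le {N x g l M : ℕ} (hx : 0 < x) (hg : 0 < g) (hM : M = N / (x ^ 2 * g)) (hlx : l ≤ x) :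
    (l * M : ℝ) ≤ N / x ∧ (M : ℝ) ≤ N / x ^ 2 ∧ l * M ≤ N := by
  have h1 : M * (x ^ 2 * g) ≤ N := by rw [hM]; exact Nat.div_mul_le_self _ _
  have h2 : M * x ^ 2 ≤ N := by
    calc M * x ^ 2 = M * (x ^ 2 * 1) := by ring
      _ ≤ M * (x ^ 2 * g) := by
        apply Nat.mul_le_mul_left
        exact Nat.mul_le_mul_left _ hg
      _ ≤ N := h1
  have h3 : (M:ℝ) * (x:ℝ) ^ 2 ≤ N := by exact_mod_cast h2
  have hx1 : (0:ℝ) < x := by exact_mod_cast hx
  have hl : (l:ℝ) ≤ x := by exact_mod_cast hlx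
  have hM0 : (0:ℝ) ≤ M := Nat.cast_nonneg M
  refine ⟨?_, ?_, ?_⟩
  · rw [le_div_iff₀ hx1]
    calc (l:ℝ) * M * x ≤ x * M * x := by
          apply mul_le_mul_of_nonneg_right _ hx1.le
          exact mul_le_mul_of_nonneg_right hl hM0
      _ = M * x ^ 2 := by ring
      _ ≤ N := h3
  · rw [le_div_iff₀ (by positivity)]
    exact h3
  · calc l * M ≤ x * M := Nat.mul_le_mul_right _ hlx
      _ ≤ (x * M) * x := Nat.le_mul_of_pos_right _ hx
      _ = M * x ^ 2 := by ring
      _ ≤ N := h2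

theorem log_lM_le {N x g l M : ℕ} (hx : 0 < x) (hg : 0 < g) (hM : M = N / (x ^ 2 * g)) (hlx : l ≤ x)
    (hl : 1 ≤ l) (hM1 : 1 ≤ M) : 0 ≤ Real.log (l * M) ∧ Real.log (l * M) ≤ Real.log N := by
  have h1 := (lM_le hx hg hM hlx).2.2
  have h2 : 1 ≤ l * M := Nat.mul_pos hl hM1
  have h3 : (1:ℝ) ≤ (l * M : ℝ) := by exact_mod_cast h2
  have h4 : (l * M : ℝ) ≤ N := by exact_mod_cast h1
  exact ⟨Real.log_nonneg h3, Real.log_le_log (by linarith) h4⟩

theorem err_le {D N x g l l' M : ℕ} (hD : 1 ≤ D) (hx : 0 < x) (hg : 0 < g)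
    (hM : M = N / (x ^ 2 * g)) (hl : 1 ≤ l) (hlx : l ≤ x) (hl' : 1 ≤ l') (hlx' : l' ≤ x) :
    (l * M / D : ℝ) * (l' * M / D) * ((1 + Real.log (l * M)) * (1 + Real.log (l' * M))) ≤
      EE N D / x ^ 2 := by
  have hx1 : (0:ℝ) < x := by exact_mod_cast hx
  have hD1 : (0:ℝ) < D := by exact_mod_cast hD
  rcases Nat.eq_zero_or_pos M with h0 | h0
  · rw [h0]
    simp only [Nat.cast_zero, mul_zero, zero_div, zero_mul]
    have := EE_nonneg N D
    positivity
  · have h1 := (lM_le hx hg hM hlx).1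
    have h2 := (lM_le hx hg hM hlx').1
    have h3 := log_lM_le hx hg hM hlx hl h0
    have h4 := log_lM_le hx hg hM hlx' hl' h0
    have e1 : (l * M / D : ℝ) ≤ N / x / D := div_le_div_of_nonneg_right h1 hD1.le
    have e2 : (l' * M / D : ℝ) ≤ N / x / D := div_le_div_of_nonneg_right h2 hD1.le
    calc (l * M / D : ℝ) * (l' * M / D) * ((1 + Real.log (l * M)) * (1 + Real.log (l' * M)))
        ≤ (N / x / D) * (N / x / D) * ((1 + Real.log N) * (1 + Real.log N)) := by
          apply mul_le_mul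
          · exact mul_le_mul e1 e2 (by positivity) (by positivity)
          · exact mul_le_mul (by linarith) (by linarith) (by linarith) (by linarith)
          · exact mul_nonneg (by linarith) (by linarith)
          · positivity
      _ = EE N D / x ^ 2 := by
          unfold EE
          field_simp

theorem sum_S_le {D : ℝ} {x M : ℕ} (J : Finset ℕ) (hJ : J ⊆ x.divisors) (Δ : ℕ → ℕ → ℝ) (B : ℝ)
    (hS : ∀ t, S D x t = ∑ j ∈ J, mu j * Δ j t) (hB : ∀ j ∈ J, ∑ t ∈ Icc 1 M, Δ j t ^ 2 ≤ B)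
    (hB0 : 0 ≤ B) : ∑ t ∈ Icc 1 M, S D x t ^ 2 ≤ (x.divisors.card : ℝ) ^ 2 * B := by
  have hcard : (J.card : ℝ) ≤ x.divisors.card := by exact_mod_cast card_le_card hJ
  calc ∑ t ∈ Icc 1 M, S D x t ^ 2 ≤ ∑ t ∈ Icc 1 M, (J.card : ℝ) * ∑ j ∈ J, Δ j t ^ 2 := by
        apply sum_le_sum
        intro t _
        rw [hS t]
        refine (sq_sum_le_card_mul_sum_sq (s := J) (f := fun j => mu j * Δ j t)).trans ?_
        apply mul_le_mul_of_nonneg_left _ (Nat.cast_nonneg _)
        apply sum_le_sum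
        intro j _
        rw [mul_pow]
        have := mu_sq_le j
        nlinarith [sq_nonneg (Δ j t)]
    _ = (J.card : ℝ) * ∑ j ∈ J, ∑ t ∈ Icc 1 M, Δ j t ^ 2 := by
        rw [← mul_sum, sum_comm]
    _ ≤ (J.card : ℝ) * ∑ j ∈ J, B := by
        apply mul_le_mul_of_nonneg_left _ (Nat.cast_nonneg _)
        exact sum_le_sum hB
    _ = (J.card : ℝ) * ((J.card : ℝ) * B) := by rw [sum_const, nsmul_eq_mul]
    _ ≤ (x.divisors.card : ℝ) * ((x.divisors.card : ℝ) * B) := by
        apply mul_le_mul hcard _ (by positivity) (by positivity)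
        exact mul_le_mul_of_nonneg_right hcard hB0
    _ = _ := by ring

theorem large (hBLG : S_BLG) {C1 : ℝ} (hC1 : 0 ≤ C1) (hQ : ∀ z : ℝ, 1 ≤ z → Q2 z z ≤ 2 * Real.log z + C1)
    {D N x g M : ℕ} (hD : 1 ≤ D) (hN : 1 ≤ N) (hx : 0 < x) (hg : 0 < g) (hM : M = N / (x ^ 2 * g)) :
    ∑ t ∈ Icc 1 M, S D x t ^ 2 ≤
      (x.divisors.card : ℝ) ^ 2 * ((N * (2 * Real.log N + C1) + EE N D) / x ^ 2) := by
  have hx1 : (0:ℝ) < x := by exact_mod_cast hx
  have hD1 : (1:ℝ) ≤ D := by exact_mod_cast hD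
  have hN1 : (1:ℝ) ≤ N := by exact_mod_cast hN
  have hlN : 0 ≤ Real.log N := Real.log_nonneg hN1
  have hE := EE_nonneg N D
  apply sum_S_le x.divisors (Subset.refl _) (fun j t => T (j * t / D) t) _ (fun t => rfl)
  · intro j hj
    have hj0 : 1 ≤ j := Nat.pos_of_mem_divisors hj
    have hjx : j ≤ x := Nat.divisor_le hj
    have h1 := hBLG D j j M hD1 hj0 hj0
    have h2 := (abs_le.1 h1).2
    have h3 := err_le (D := D) hD hx hg hM hj0 hjx hj0 hjx
    have h4 : ∑ t ∈ Icc 1 M, Q2 (j * t / D) (j * t / D) ≤ M * (2 * Real.log N + C1) := by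
      calc ∑ t ∈ Icc 1 M, Q2 (j * t / D) (j * t / D) ≤ ∑ t ∈ Icc 1 M, (2 * Real.log N + C1) := by
            apply sum_le_sum
            intro t ht
            rw [mem_Icc] at ht
            rcases lt_or_ge ((j * t / D : ℝ)) 1 with h | h
            · rw [Q2_self_zero h]
              positivity
            · refine (hQ _ h).trans ?_
              have h5 : Real.log (j * t / D) ≤ Real.log N := by
                apply Real.log_le_log (by linarith)
                have h6 : (j * t : ℝ) ≤ N := by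
                  have h7 : j * t ≤ N := (Nat.mul_le_mul_left j ht.2).trans (lM_le hx hg hM hjx).2.2
                  exact_mod_cast h7
                exact (div_le_self (by positivity) hD1).trans h6
              linarith
        _ = _ := by rw [sum_const, nsmul_eq_mul, Nat.card_Icc, Nat.add_sub_cancel]
    have h5 : (M:ℝ) * (2 * Real.log N + C1) ≤ N / x ^ 2 * (2 * Real.log N + C1) :=
      mul_le_mul_of_nonneg_right (lM_le hx hg hM (l := x) le_rfl).2.1 (by positivity)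
    have h6 : ∑ t ∈ Icc 1 M, T (j * t / D) t ^ 2 = ∑ t ∈ Icc 1 M, T (j * t / D) t * T (j * t / D) t :=
      sum_congr rfl (fun t _ => sq _)
    rw [h6]
    have h7 : (N:ℝ) / x ^ 2 * (2 * Real.log N + C1) + EE N D / x ^ 2 =
        (N * (2 * Real.log N + C1) + EE N D) / x ^ 2 := by
      field_simp
    linarith
  · positivity

theorem small (hBLG : S_BLG) {C2 δ : ℝ} (hC2 : 0 ≤ C2) (hδ : 0 ≤ δ)
    {D N x g M : ℕ} (hD : 1 ≤ D) (hN : 1 ≤ N) (hx : 2 ≤ x) (hg : 0 < g) (hM : M = N / (x ^ 2 * g))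
    (hQ : ∀ z : ℝ, 0 < z → z ≤ N → q2 (x.minFac * z) z ≤ δ * Real.log N + C2) :
    ∑ t ∈ Icc 1 M, S D x t ^ 2 ≤
      (x.divisors.card : ℝ) ^ 2 * ((N * (δ * Real.log N + C2) + 4 * EE N D) / x ^ 2) := by
  have hx0 : 0 < x := by omega
  have hx1 : (0:ℝ) < x := by exact_mod_cast hx0
  have hD1 : (1:ℝ) ≤ D := by exact_mod_cast hD
  have hN1 : (1:ℝ) ≤ N := by exact_mod_cast hN
  have hlN : 0 ≤ Real.log N := Real.log_nonneg hN1
  have hE := EE_nonneg N D
  have hp : x.minFac.Prime := Nat.minFac_prime (by omega)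
  have hpx : x.minFac ∣ x := Nat.minFac_dvd x
  set p := x.minFac with hpdef
  apply sum_S_le (x.divisors.filter (fun j : ℕ => ¬ p ∣ j)) (filter_subset _ _)
    (fun j t => T (j * t / D) t - T ((p * j : ℕ) * t / D) t) _ (fun t => pairing hp hpx (fun j => T (j * t / D) t))
  · intro j hj
    rw [mem_filter] at hj
    have hj0 : 1 ≤ j := Nat.pos_of_mem_divisors hj.1
    have hjx : j ≤ x := Nat.divisor_le hj.1
    have hpj0 : 1 ≤ p * j := Nat.mul_pos hp.pos hj0
    have hpjx : p * j ≤ x := Nat.le_of_dvd hx0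
      (Nat.Coprime.mul_dvd_of_dvd_of_dvd ((Nat.Prime.coprime_iff_not_dvd hp).2 hj.2) hpx
        (Nat.dvd_of_mem_divisors hj.1))
    have a1 := (abs_le.1 (hBLG D j j M hD1 hj0 hj0)).2
    have a2 := (abs_le.1 (hBLG D (p * j) j M hD1 hpj0 hj0)).1
    have a3 := (abs_le.1 (hBLG D (p * j) (p * j) M hD1 hpj0 hpj0)).2
    have b1 := err_le (D := D) hD hx0 hg hM hj0 hjx hj0 hjx
    have b2 := err_le (D := D) hD hx0 hg hM hpj0 hpjx hj0 hjx
    have b3 := err_le (D := D) hD hx0 hg hM hpj0 hpjx hpj0 hpjx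
    have h4 : ∑ t ∈ Icc 1 M, q2 ((p * j : ℕ) * t / D) (j * t / D) ≤ M * (δ * Real.log N + C2) := by
      calc ∑ t ∈ Icc 1 M, q2 ((p * j : ℕ) * t / D) (j * t / D) ≤ ∑ t ∈ Icc 1 M, (δ * Real.log N + C2) := by
            apply sum_le_sum
            intro t ht
            rw [mem_Icc] at ht
            have e : (((p * j : ℕ) : ℝ) * t / D) = p * (j * t / D) := by
              push_cast
              ring
            rw [e]
            have hj1 : (0:ℝ) < j := by exact_mod_cast hj0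
            have ht1 : (0:ℝ) < t := by exact_mod_cast ht.1
            apply hQ _ (by positivity)
            have h6 : (j * t : ℝ) ≤ N := by
              have h7 : j * t ≤ N := (Nat.mul_le_mul_left j ht.2).trans (lM_le hx0 hg hM hjx).2.2
              exact_mod_cast h7
            exact (div_le_self (by positivity) hD1).trans h6
        _ = _ := by rw [sum_const, nsmul_eq_mul, Nat.card_Icc, Nat.add_sub_cancel]
    have h5 : (M:ℝ) * (δ * Real.log N + C2) ≤ N / x ^ 2 * (δ * Real.log N + C2) :=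
      mul_le_mul_of_nonneg_right (lM_le hx0 hg hM (l := x) le_rfl).2.1 (by positivity)
    have h6 : ∑ t ∈ Icc 1 M, (T (j * t / D) t - T ((p * j : ℕ) * t / D) t) ^ 2 =
        ∑ t ∈ Icc 1 M, T (j * t / D) t * T (j * t / D) t
        - 2 * ∑ t ∈ Icc 1 M, T ((p * j : ℕ) * t / D) t * T (j * t / D) t
        + ∑ t ∈ Icc 1 M, T ((p * j : ℕ) * t / D) t * T ((p * j : ℕ) * t / D) t := by
      rw [mul_sum, ← sum_sub_distrib, ← sum_add_distrib]
      exact sum_congr rfl (fun t _ => by ring)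
    have h7 : ∑ t ∈ Icc 1 M, q2 ((p * j : ℕ) * t / D) (j * t / D) =
        ∑ t ∈ Icc 1 M, Q2 (j * t / D) (j * t / D)
        - 2 * ∑ t ∈ Icc 1 M, Q2 ((p * j : ℕ) * t / D) (j * t / D)
        + ∑ t ∈ Icc 1 M, Q2 ((p * j : ℕ) * t / D) ((p * j : ℕ) * t / D) := by
      rw [mul_sum, ← sum_sub_distrib, ← sum_add_distrib]
      exact sum_congr rfl (fun t _ => by rw [q2_eq]; ring)
    have h8 : (N:ℝ) / x ^ 2 * (δ * Real.log N + C2) + 4 * (EE N D / x ^ 2) =
        (N * (δ * Real.log N + C2) + 4 * EE N D) / x ^ 2 := by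
      field_simp
    rw [h6]
    linarith
  · positivity

end Pool.Agent.P8H5.GV.NSQ
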